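import Pool.Agent.Run7.h334.CovHyp
import Pool.Agent.Y216.RncD

/-!
MP_5b1cbc_ag, Q1: general type and pseudo-geometric hyperbolicity, for all projective varieties of
dimension `n` with a dominant rational map to the space `P^n` of binary forms of degree `n`, ramified
over the hyperplanes of the forms which vanish at given points.

Let `k` be an algebraically closed field of characteristic zero, and let `X` be a projective variety
of dimension `n ≥ 1` over `k` with a dominant rational map `c : X ⇢ P^n` (of any degree, not
necessarily Galois). Let `(u_i : v_i)`, `i = 1, …, q`, be different points of the projective line, and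
let `H_i` be the hyperplane of the binary forms `∑ c_l U^(n - l) V^l` which vanish at the point
`(u_i : v_i)`: the hyperplane which is dual to the point `(u_i : v_i)` of the rational normal curve.
Suppose that `c` is ramified of order `m_i` over `H_i` in the following sense: the ratio of the value
at the point `i` and the value at the point `j` of the form `c` is an `m_i`-th power of a rational
function on `X`, for at least `n` other indices `j` (`PowerRatios`; for instance, if all these ratios
are powers). We suppose

`2 n < ∑ (1 - 1 / m_i)`.

Then `X` is of general type and pseudo-geometrically hyperbolic, as conjectured by Lang, and off a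
proper closed subset the degrees of the maps from curves of genus `g` to `X` are at most
`B max (2 g - 2) 0`. For instance, `q > 4 n` points and `m_i = 2` are sufficient. For large orders
`m_i` the number `2 n + 1` of hyperplanes is sufficient.

The starting file `AbelianCovers` treats abelian covers with `n (n + 1) (n + 2) < 2 m_i`, and
`KummerPointed` very large orders; the orders here can be two. The starting files
`MP_8d161d_ag.BinaryForms` and `MP_4dacf8_ag.BinaryForms` treat entire curves and heights for the same
ramification.

The proof (the inequality for curves is in `Pool/Agent/Y216`): for a map `f` from a curve to `P^n`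
with the derivation `D` of its function field, the resultant of the binary form `f` and of its
derivative `D f` is nonzero if `f` is squarefree without constant roots, and it vanishes at the points
of the curve over the hyperplanes `H_i`. This bounds the height of `f` by the genus.
-/

set_option autoImplicit false

namespace Pool.Agent.Results.MP_5b1cbc_ag.BinaryFormCovers

open Pool.Agent.W602.GT Pool.Agent.W602.RG Pool.Agent.Y216

/-- Let `k` be an algebraically closed field of characteristic zero, let `(u i : v i)`, `i < q`, be
different points of the projective line over `k`, and let `m i ≥ 1` be integers with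
`2 n < ∑ (1 - 1 / m i)`. Let `K` be the function field of a variety `X` of dimension `n ≥ 1`, let
`c` be a dominant rational map from `X` to the projective space of the binary forms of degree `n`,
and suppose that for every `i` the ratio of the value of the form `c` at the point `(u i : v i)` and
its value at the point `(u j : v j)` is an `m i`-th power in `K`, for at least `n` other indices `j`.
Then `X` is of general type, and for every projective model `V` of `X` (with generic point `y`):
`V` is pseudo-geometrically hyperbolic, and off a proper closed subset of `V` the degrees of the maps
from smooth projective curves of genus `g` to `V` are at most `B * max (2 * g - 2) 0`. -/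
theorem result {k : Type} [Field k] [IsAlgClosed k] [CharZero k] {n q : ℕ} (hn : 1 ≤ n)
    (u v : Fin q → k) (huv : ∀ i j, i ≠ j → u i * v j ≠ u j * v i) (m : Fin q → ℕ)
    (hm : ∀ i, 1 ≤ m i) (hsum : 2 * (n : ℝ) < ∑ i, (1 - 1 / (m i : ℝ)))
    (K : Type) [Field K] [Algebra k K] (htr : Algebra.trdeg k K = n) (c : Fin (n + 1) → K)
    (hc0 : c 0 ≠ 0) (hc : AlgebraicIndependent k (fun j : Fin n => c j.succ / c 0))
    (hpow : PowerRatios (fun i l => u i ^ (n - l) * v i ^ (l : ℕ)) m c) :
    ∀ (N : ℕ) (y : Fin (N + 1) → K), y ≠ 0 → coords k y = ⊤ →
      GeneralType k K n ∧ PseudoGeomHyp k y ∧ CurveBound k y := by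
  intro N y hy hgen
  obtain ⟨B, hB⟩ := curveIneq_rnc hn huv hm hsum
  have hsum' : (n : ℝ) + 1 < ∑ i, (1 - 1 / (m i : ℝ)) := by
    have h1 : (1 : ℝ) ≤ n := by exact_mod_cast hn
    linarith
  exact Run7.h334.CovHyp.main_reduction3 (rnc_genPos huv) hm hsum'
    (mul_ne_zero (MvPolynomial.X_ne_zero _) (discForm_ne hn))
    ((MvPolynomial.isHomogeneous_X k (Fin.last n)).mul discForm_homogeneous) hB hy hgen htr hc0 hc
    hpow

end Pool.Agent.Results.MP_5b1cbc_ag.BinaryFormCovers
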