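import Pool.Agent.Run7.h177.PG.Gen
import Pool.Agent.Run7.h177.GS.Hyp

/-!
# Pseudo-geometric hyperbolicity and general type, for projective varieties whose symmetric differentials
# generate a symmetric power of the cotangent sheaf

`X = {F = 0}` is a complex projective variety (or scheme), of any dimension, possibly singular, such
that finitely many regular symmetric differentials `s j` of one degree `m > 0` generate `Sᵐ Ω` on `X`
(`SymForm`, `Generates`, `Pool/Agent/Run7/h418`). For example `X` is smooth and `Sᵐ Ω` is generated by
global sections; closed subvarieties of such an `X` inherit the property.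

Let `V` be a closed subvariety of `X` of positive dimension, with generic point `y` (`SubVar`); for
example `V = X`, if `X` is irreducible. `PseudoGeomHyp ℂ y` (`Pool/Agent/W602/RG/TB.lean`): outside a
proper closed subset of `V`, for every pointed smooth projective curve there are only finitely many
morphisms to `V` with a given value at the marked point (as `V` is projective, this is the same for the
open curves). `CurveBound ℂ y` (`Pool/Agent/Y216/Defs.lean`): for some `B`, the degree of the morphisms
from curves of genus `g` to `V` with image not contained in a certain proper closed subset is at most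
`B * max (2 * g - 2) 0`.

Theorem.

1. If `V` is pseudo-geometrically hyperbolic, then `V` is of general type; moreover, it is strongly of
   general type (`StronglyGeneral`: all closed subvarieties of positive dimension outside a proper
   closed subset are of general type), and there are proper closed subsets of `V` which contain all
   nonconstant entire curves (`PseudoBrody`) and all images of nonconstant holomorphic maps from complex
   tori (`PseudoTorus`) in `V`.
2. The same holds if the degrees of the curves in `V` satisfy the linear bound.
3. Let `Z = {Q = 0}` be a closed subset such that for all points `x` of `X` not in `Z` and all pointed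
   smooth projective curves there are only finitely many morphisms to `X` with the value `x` at the
   marked point (`FinMaps`). Then all closed subvarieties of `X` of positive dimension which are not
   contained in `Z` are of general type, and `Z` contains all nonconstant entire curves in `X`.

The proof. By the theorems of helper418 (`Pool/Agent/Run7/h418`, on all entire curves
`Pool/Agent/Run7/h418/E`, with pieces by helper177, helper711, helper83, helper847, helper712,
helper283, helper576 and helper941) a subvariety which is not of general type is covered by immersed
complex tori. Near a fixed point the multiplication by `2` of such a torus is given by rational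
functions on an algebraic variety (project TA, `Pool/Agent/Run7/h177/TA`, with helpers 160, 588, 711,
811, 824, 862, 939, 973); restricted to a curve in this variety through the fixed point the iterates
give infinitely many morphisms from this curve, with the same value at the fixed point
(`Pool/Agent/Run7/h177/PG`).
-/

set_option autoImplicit false

open Pool.Agent.W602.GT Pool.Agent.N155 Run7.h418 Pool.Agent.TH182.TC Run7.h177.PG Run7.h177.GS
open Pool.Agent.W602.RG (PseudoGeomHyp)
open Pool.Agent.Y216 (CurveBound pointed_of_bound)
open Pool.Agent.R869.Wd (StronglyGeneral)

namespace Pool.Agent.Results.MP_5b1cbc_ag.GeneratedDifferentials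

/-- **Pseudo-geometrically hyperbolic varieties with a generated symmetric power of the cotangent sheaf
are of general type.** -/
theorem result {n m : ℕ} {ι τ : Type} [Fintype τ] {F : ι → MvPolynomial (Fin (n + 1)) ℂ}
    (hF : ∀ i, IsForm (F i)) (hm : 0 < m)
    {s : τ → (Fin (n + 1) → ℂ) → (Fin (n + 1) → ℂ) → ℂ} (hs : ∀ j, SymForm F m (s j))
    (hgen : Generates F m s) :
    (∀ (K : Type) [Field K] [Algebra ℂ K] (w : ℕ) (y : Fin (n + 1) → K), 0 < w →
      SubVar F K w y → (PseudoGeomHyp ℂ y ∨ CurveBound ℂ y) →
        GeneralType ℂ K w ∧ StronglyGeneral ℂ y ∧ PseudoBrody y ∧ PseudoTorus y) ∧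
    ∀ (κ : Type) (Q : κ → MvPolynomial (Fin (n + 1)) ℂ), (∀ j, IsForm (Q j)) → FinMaps F Q →
      (∀ (K : Type) [Field K] [Algebra ℂ K] (w : ℕ) (y : Fin (n + 1) → K), 1 ≤ w →
        SubVar F K w y → (∃ j, val y (Q j) ≠ 0) → GeneralType ℂ K w) ∧
      ∀ p : ℂ → PS n, HolMap p → (∀ z, (p z).rep ∈ Cone F) → (∃ z w, p z ≠ p w) →
        ∀ j z, MvPolynomial.eval (p z).rep (Q j) = 0 := by
  refine ⟨fun K _ _ w y hw hy h => ?_, fun κ Q hQ hfin => ⟨fun K _ _ w y hw hy hyQ =>
    general_off hF hQ hfin hm hs hgen hw hy hyQ, fun p hp hpF hne j z =>
    ent_zero hF hQ hfin hm hs hgen hp hpF hne j z⟩⟩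
  have h1 : PseudoGeomHyp ℂ y := h.elim id pointed_of_bound
  have h2 := general_of_pointed hF hm hs hgen hw hy h1
  exact ⟨h2, (strongly_iff hF hm hs hgen hw hy).1 h2, (E.thm_iff hF hm hs hgen hw hy).1 h2,
    (U.general_iff_torus hF hm hs hgen hw hy).1 h2⟩

end Pool.Agent.Results.MP_5b1cbc_ag.GeneratedDifferentials
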