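import Pool.Agent.Run7.h72.Final

/-!
# Images of the product of a variety and a curve: general type or covered by rational or elliptic curves

Let `X` be a smooth projective variety over `ℂ` of dimension `n` and `C` a smooth projective curve of
any genus. Let `X × C ⇢ W` be a dominant rational map of finite degree to a variety `W`. It need not
be related to the product structure, and it need not be the quotient by a group. Let `d` be the number
of different points of `X` below a general fibre of `X × C ⇢ W`, i.e. the degree over `W` of the image
of `X × C` in `W × X`; it is at most the degree of `X × C ⇢ W`, which may be arbitrarily large.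

Suppose that `N K_X - M H` is effective, where `H` is a linear system which defines a birational map
(or at least separates the points of `X` below a general fibre, and defines a generically finite map),
and `M > 2 N (d - 1)`. More generally one can use linear systems `H i` on `X` which separate these
points one after the other: then `d` is replaced by the degrees `d i` of the steps,
`N K_X - ∑ M i H i` is effective and `M i > 2 N (d i - 1)`. Then `X` is of general type, but there is no
condition on the canonical forms of `X`; `p_g(X) = 0` is possible.

**Theorem.** The following are equivalent: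

1. `W` is of general type;
2. `W` is not covered by rational or elliptic curves;
3. `W` has no fibration `W ⇢ Z` over a variety `Z` of general type of dimension `n = dim W - 1` whose
   geometric generic fibre is a rational or elliptic curve, such that `X × C ⇢ Z` factors through a
   dominant rational map `X ⇢ Z` of degree at most `d`.

Rational and elliptic curves have infinitely many maps to themselves which fix a given point. So if
`W` is covered by such curves then it is not pseudo-geometrically hyperbolic (this remark is not part
of the Lean proof). Hence a pseudo-geometrically hyperbolic variety `W` in this class is of general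
type, as predicted by Lang's conjecture; if `W` is not of general type then it is not hyperbolic for a
simple reason, and the curves are the fibres of a fibration over a variety of general type.

There is no condition on the irregularity of `X` and `W`, so the Albanese map of `W` may be constant.
Example: `X` is a resolution of the quotient of the product of three hyperelliptic curves of the genera
`g i` by the diagonal involution, `H i` the three projections to the projective line, `N = 2` and
`M i = 2 (g i - 1)`. Then `p_g(X) = 0`, and there are no canonical forms on `X × C`. The condition for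
`M` is optimal: let `X` be a hyperelliptic curve of genus three with a map of degree two to an elliptic
curve `X'`, so `K_X = 2 H`, and let `C` be of genus at least two and `W = X' × C`. Then `d = 2`,
`M = 2 N (d - 1)`, and `W` is covered by elliptic curves, but `W ⇢ Z` as in 3. does not exist.

Proof. Let `T` be the function field of the image of `X × C` in `W × X`. For a differential `φ` on `C`
and an `N`-canonical form `ψ` on `X` the product of `ψ` and the `N`-th power of the trace of `φ` on `T`
is a regular `N`-canonical form of `T`, as one sees in local coordinates of `X`. The same holds for the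
products of `ψ` with the monomials in the functions of the systems `H i`. If there are two traces whose
ratio is not algebraic over `ℂ(X)` then `T` has enough such forms, and the norm principle gives
pluricanonical forms on `W`: if `t` generates the last step of the tower `ℂ(W) ⊂ ... ⊂ T` then the norm
of a form `ω`, multiplied by a power of the norm of the derivative of the minimal polynomial of `t`, is
regular, if all `t ^ j ω` are, `j ≤ 2 N (d - 1)`. So `W` is of general type. If there are no such
traces then the images in `W` of the curves `{x} × C` are rational or elliptic curves. Let `R` be one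
of these curves, over the algebraic closure `Λ` of `ℂ(X)`. The points of `X` over the points of `R`
give a correspondence `Ξ` of degree at most `d` over `R` with a map to `X`. If the map is not constant
then the forms of `X` give regular `N`-fold differentials on the curve `Ξ` over `Λ`, by contraction
with vector fields of `Λ`, and by the norm principle they give nonproportional ones on `R`, a
contradiction. So the fibres of `W ⇢ Z` are the images of the curves `{x} × C`, `X` dominates `Z`, and
by the norm principle for `X ⇢ Z` the variety `Z` is of general type.

The results on rational curves and traces for the product with a curve and on the coverings of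
varieties of general type are the ones of the starting tree (`Pool.Agent.N145.SX` and the parts used
there).
-/

set_option autoImplicit false
set_option linter.overlappingInstances false
set_option maxHeartbeats 4000000
set_option synthInstance.maxHeartbeats 400000

open FF Module IntermediateField Pool.Agent Pool.Agent.W602.GT Run7.h72

namespace Pool.Agent.Results.MP_5b1cbc_ag.PluricanonicalLang

/-- The curve with the function field `F` over the algebraically closed field `Λ` is rational, i.e.
`F = Λ(t)`, or elliptic, i.e. it has a vector field `D` without zeros and poles: `D t` is a unit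
for the uniformizers `t` at all points `w`. -/
def IsRationalOrElliptic (Λ F : Type) [Field Λ] [Field F] [Algebra Λ F] : Prop :=
  (∃ t : F, Λ⟮t⟯ = ⊤) ∨ ∃ D : Derivation Λ F F, ∀ (w : Place Λ F) (t : F), w.ord t = 1 →
    D t ≠ 0 ∧ w.ord (D t) = 0

/-- The variety with the function field `L`, of dimension `m + 1`, is covered by an `m`-dimensional
family of rational or elliptic curves: there are an algebraically closed field `Λ` of transcendence
degree `m` (the algebraic closure of the function field of the base of the family) and a curve over
`Λ` with function field `F` (the geometric generic curve of the family), which is rational or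
elliptic, and an embedding of `L` into `F` (the dominant map from the total space to `W`). -/
def IsCoveredByRationalOrElliptic (L : Type) [Field L] [Algebra ℂ L] (m : ℕ) : Prop :=
  ∃ (Λ F : Type) (_ : Field Λ) (_ : Field F) (_ : Algebra ℂ Λ) (_ : Algebra ℂ F)
    (_ : Algebra Λ F) (_ : IsScalarTower ℂ Λ F) (_ : IsAlgClosed Λ) (_ : IsFF Λ F),
    Algebra.trdeg ℂ Λ = m ∧ IsRationalOrElliptic Λ F ∧ Nonempty (L →ₐ[ℂ] F)

/-- There is a fibration `W ⇢ Z` over a variety `Z` of general type and of dimension `n` whose
geometric generic fibre is a rational or elliptic curve, such that `X × C ⇢ Z` is the composition of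
the projection to `X` with a dominant rational map `X ⇢ Z` of degree at most `d`. In terms of the
function fields `L` of `W`, `K` of `X × C` and `E ⊆ K` of `X`: there is a subfield `F₀` of `L` (the
function field of `Z`), algebraically closed in `L`, such that `Z` is of general type, the embedding of
`L` in `K` maps `F₀` into `E`, the degree of `E` over the image of `F₀` is finite and at most `d`, and
for an algebraic closure `Λ` of `F₀` and a curve with function field `F` over `Λ`, generated by the
image of an embedding of `L` over `F₀` (so `F` is the function field of the geometric generic fibre),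
the curve is rational or elliptic. -/
def IsFibredBelow {K : Type} [Field K] [Algebra ℂ K] (E : IntermediateField ℂ K) (L : Type)
    [Field L] [Algebra ℂ L] [Algebra L K] [IsScalarTower ℂ L K] (n d : ℕ) : Prop :=
  ∃ F₀ : IntermediateField ℂ L, (∀ z : L, IsAlgebraic F₀ z → z ∈ F₀) ∧ GeneralType ℂ F₀ n ∧
    F₀.map (IsScalarTower.toAlgHom ℂ L K) ≤ E ∧
    0 < relfinrank (F₀.map (IsScalarTower.toAlgHom ℂ L K)) E ∧
    relfinrank (F₀.map (IsScalarTower.toAlgHom ℂ L K)) E ≤ d ∧
    ∃ (Λ F : Type) (_ : Field Λ) (_ : Field F) (_ : Algebra F₀ Λ) (_ : Algebra F₀ F)
      (_ : Algebra Λ F) (_ : IsScalarTower F₀ Λ F) (_ : IsAlgClosed Λ)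
      (_ : Algebra.IsAlgebraic F₀ Λ) (_ : IsFF Λ F) (ψ : L →ₐ[F₀] F),
      IntermediateField.adjoin Λ (Set.range ψ) = ⊤ ∧ IsRationalOrElliptic Λ F

theorem glo_iff {Λ F : Type} [Field Λ] [Field F] [Algebra Λ F] [CharZero Λ] [IsAlgClosed Λ]
    [IsFF Λ F] : N145.SX.GLO Λ F ↔ IsRationalOrElliptic Λ F := by
  unfold IsRationalOrElliptic
  simp only [N145.SX.flat_iff]
  exact ⟨N145.SX.flat_of_glo, N145.SX.glo_of_flat⟩

theorem cover_iff (L : Type) [Field L] [Algebra ℂ L] (m : ℕ) :
    N145.SX.Cov1 L m ↔ IsCoveredByRationalOrElliptic L m := by
  constructor
  · rintro ⟨Λ, F, i1, i2, i3, i4, i5, i6, i7, i8, h1, h2, h3⟩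
    have hch : CharZero Λ := charZero_of_injective_algebraMap (algebraMap ℂ Λ).injective
    exact ⟨Λ, F, i1, i2, i3, i4, i5, i6, i7, i8, h1, glo_iff.1 h2, h3⟩
  · rintro ⟨Λ, F, i1, i2, i3, i4, i5, i6, i7, i8, h1, h2, h3⟩
    have hch : CharZero Λ := charZero_of_injective_algebraMap (algebraMap ℂ Λ).injective
    exact ⟨Λ, F, i1, i2, i3, i4, i5, i6, i7, i8, h1, glo_iff.2 h2, h3⟩

theorem fib_iff {K : Type} [Field K] [Algebra ℂ K] (E : IntermediateField ℂ K) (L : Type)
    [Field L] [Algebra ℂ L] [Algebra L K] [IsScalarTower ℂ L K] (n d : ℕ) :
    FibE E L n d n ↔ IsFibredBelow E L n d := by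
  constructor
  · rintro ⟨N, h1, h2, g1, g2, g3, h3, Λ, F, i1, i2, i3, i4, i5, i6, i7, i8, i9, ψ, h4, h5⟩
    have hch' : CharZero N := charZero_of_injective_algebraMap (algebraMap ℂ N).injective
    have hch : CharZero Λ := charZero_of_injective_algebraMap (algebraMap N Λ).injective
    exact ⟨N, h1, (N145.SX.kodGe_iff h2).1 h3, g1, g2, g3, Λ, F, i1, i2, i3, i4, i5, i6, i7, i8, i9,
      ψ, h4, glo_iff.1 h5⟩
  · rintro ⟨N, h1, h3, g1, g2, g3, Λ, F, i1, i2, i3, i4, i5, i6, i7, i8, i9, ψ, h4, h5⟩
    have hch' : CharZero N := charZero_of_injective_algebraMap (algebraMap ℂ N).injective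
    have hch : CharZero Λ := charZero_of_injective_algebraMap (algebraMap N Λ).injective
    exact ⟨N, h1, h3.1, g1, g2, g3, (N145.SX.kodGe_iff h3.1).2 h3, Λ, F, i1, i2, i3, i4, i5, i6, i7,
      i8, i9, ψ, h4, glo_iff.2 h5⟩

/-- **General type and coverings by rational or elliptic curves.** Let `K` be the function field of
`X × C`, i.e. the compositum of the function fields `E` of the variety `X` of dimension `n` and `C` of
the curve, of transcendence degree `n + 1`. Let `L ⊆ K` be the function field of a variety `W` such
that the extension is finite. Let `x i` (`i < c`) be families of rational functions on `X`, each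
containing `1`, with `L(x 0, …, x (c - 1)) = L(E)`, let `L_i = L(x 0, …, x (i - 1))` (this is
`Lv L x i`), and let `n` of these functions be algebraically independent. Suppose that there are
`N > 0`, `M i` and a nonzero `N`-canonical form `ψ` on `X` such that all products of `ψ` with
`∏ (x i (f i)) ^ M i` are regular, and `M i > 2 N ([L_{i + 1} : L_i] - 1)`. Then the following are
equivalent: `W` is of general type; `W` is not covered by rational or elliptic curves; `W` has no
fibration over a variety `Z` of general type of dimension `n` whose geometric generic fibre is a
rational or elliptic curve, where `X × C ⇢ Z` factors through a dominant rational map `X ⇢ Z` of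
degree at most `[L(E) : L]`. -/
theorem result (K : Type) [Field K] [Algebra ℂ K] [Algebra.EssFiniteType ℂ K] (n : ℕ)
    (E C : IntermediateField ℂ K) [Algebra.EssFiniteType ℂ E] [IsFF ℂ C] (hEC : E ⊔ C = ⊤)
    (hE : Algebra.trdeg ℂ E = n) (hK : Algebra.trdeg ℂ K = (n + 1 : ℕ)) (L : Type) [Field L]
    [Algebra ℂ L] [Algebra L K] [IsScalarTower ℂ L K] [FiniteDimensional L K] {c : ℕ}
    {m : Fin c → ℕ} (x : ∀ i, Fin (m i + 1) → E) (hx : ∀ i, x i 0 = 1)
    (hgen : Lv L (fun i b => (x i b : K)) c = IntermediateField.adjoin L (E : Set K)) {N : ℕ}
    (hN : 0 < N) (M : Fin c → ℕ)
    (hM : ∀ i : Fin c, 2 * N * (finrank L (Lv L (fun i b => (x i b : K)) (i + 1)) -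
      finrank L (Lv L (fun i b => (x i b : K)) i)) <
      M i * finrank L (Lv L (fun i b => (x i b : K)) i))
    {ψ : (Fin n → Derivation ℂ E E) → E} (hψ0 : ∃ D, ψ D ≠ 0)
    (hψ : ∀ f : ∀ i, Fin (m i + 1),
      LogSec ℂ E n N (fun _ => False) fun D => (∏ i, x i (f i) ^ M i) * ψ D)
    (s : Fin n → Σ i, Fin (m i + 1))
    (hs : AlgebraicIndependent ℂ fun l => x (s l).1 (s l).2) :
    [GeneralType ℂ L (n + 1), ¬ IsCoveredByRationalOrElliptic L n,
      ¬ IsFibredBelow E L n (finrank L (IntermediateField.adjoin L (E : Set K)))].TFAE := by
  have hL : Algebra.trdeg ℂ L = (n + 1 : ℕ) := Pool.Agent.Y184.NT.trdeg_below (K := K) hK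
  have h := lang hEC hE hK (L := L) x hx hgen hN M (fun i => by
    have h1 := hM i
    have e1 : 2 * N * (finrank L (Lv L (fun i b => (x i b : K)) (i + 1)) -
        finrank L (Lv L (fun i b => (x i b : K)) i)) =
        2 * (finrank L (Lv L (fun i b => (x i b : K)) (i + 1)) -
        finrank L (Lv L (fun i b => (x i b : K)) i)) * N := by ring
    rwa [e1] at h1) hψ0 hψ s hs
  rwa [N145.SX.kodGe_iff hL, cover_iff, fib_iff] at h

end Pool.Agent.Results.MP_5b1cbc_ag.PluricanonicalLang
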