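import Pool.Agent.Run7.h334.CovHyp
import Pool.Agent.Y216.Gen

/-!
MP_5b1cbc_ag, Q1: general type and pseudo-geometric hyperbolicity, for all projective varieties of
dimension `n` with a dominant rational map to `P^n` which is ramified over many hyperplanes in general
position, of any orders at least two.

Let `k` be an algebraically closed field of characteristic zero, and let `X` be a projective variety
of dimension `n ≥ 1` over `k` with a dominant rational map `c : X ⇢ P^n` (of any degree, not
necessarily Galois). Let `H_1, …, H_q` be hyperplanes in general position which, as points of the dual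
projective space, impose independent conditions on the forms of degree `d + 1` (`d ≥ 0`; this holds
for general hyperplanes if `q ≤ (n + d + 1).choose n`). Suppose that `c` is ramified of order `m_i`
over `H_i` in the following sense: the ratio of the linear forms of `H_i` and `H_j` at `c` is an
`m_i`-th power of a rational function on `X`, for at least `n` other indices `j` (`PowerRatios`). We
suppose

`2 (n + d).choose (n - 1) < ∑ (1 - 1 / m_i)`.

Then `X` is of general type and pseudo-geometrically hyperbolic, as conjectured by Lang, and off a
proper closed subset the degrees of the maps from curves of genus `g` to `X` are at most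
`B max (2 g - 2) 0`. For instance, with `m_i = 2`, this applies to more than
`4 (n + d).choose (n - 1)` general hyperplanes; as `(n + d + 1).choose n` is
`(n + d + 1) / n` times `(n + d).choose (n - 1)`, there are such arrangements if `d + 1 > 3 n`, and
the condition holds for all `m_i ≥ 2` and every number of general hyperplanes between the two.

The starting file `AbelianCovers` treats abelian covers with `n (n + 1) (n + 2) < 2 m_i`, and
`KummerPointed` very large orders; the orders here can be two. The inequality for curves is in
`Pool/Agent/Y216/Gen.lean`; it comes from a frame of vector fields with poles (`Pool/Agent/W601/VF`).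
-/

set_option autoImplicit false

namespace Pool.Agent.Results.MP_5b1cbc_ag.RamifiedHyperplanes

open Pool.Agent.W602.GT Pool.Agent.W602.RG Pool.Agent.Y216 Pool.Agent.W601.VF

/-- Let `k` be an algebraically closed field of characteristic zero, let `a i`, `i < q`, be the
coefficients of linear forms in `n + 1` variables, each `n + 1` of them linearly independent, and such
that the points `a i` impose independent conditions on the forms of degree `d + 1`, and let
`m i ≥ 1` be integers with `2 (n + d).choose (n - 1) < ∑ (1 - 1 / m i)`. Let `K` be the function field
of a variety `X` of dimension `n ≥ 1`, let `c` be a dominant rational map from `X` to the projective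
`n`-space, and suppose that for every `i` the ratio of the linear forms `a i` and `a j` at `c` is an
`m i`-th power in `K`, for at least `n` other indices `j`. Then `X` is of general type, and for every
projective model `V` of `X` (with generic point `y`): `V` is pseudo-geometrically hyperbolic, and off
a proper closed subset of `V` the degrees of the maps from smooth projective curves of genus `g` to
`V` are at most `B * max (2 * g - 2) 0`. -/
theorem result {k : Type} [Field k] [IsAlgClosed k] [CharZero k] {n q d : ℕ} (hn : 1 ≤ n)
    (a : Fin q → Fin (n + 1) → k) (ha : GenPos a) (hind : Ind (d + 1) a) (m : Fin q → ℕ)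
    (hm : ∀ i, 1 ≤ m i)
    (hsum : 2 * (((n + d).choose (n - 1) : ℕ) : ℝ) < ∑ i, (1 - 1 / (m i : ℝ)))
    (K : Type) [Field K] [Algebra k K] (htr : Algebra.trdeg k K = n) (c : Fin (n + 1) → K)
    (hc0 : c 0 ≠ 0) (hc : AlgebraicIndependent k (fun j : Fin n => c j.succ / c 0))
    (hpow : PowerRatios a m c) :
    ∀ (N : ℕ) (y : Fin (N + 1) → K), y ≠ 0 → coords k y = ⊤ →
      GeneralType k K n ∧ PseudoGeomHyp k y ∧ CurveBound k y := by
  intro N y hy hgen
  obtain ⟨B, hB⟩ := curveIneq_general hn hind hm hsum
  have hsum' : (n : ℝ) + 1 < ∑ i, (1 - 1 / (m i : ℝ)) := by
    have h1 : (1 : ℝ) ≤ n := by exact_mod_cast hn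
    have h2 : n ≤ (n + d).choose (n - 1) := by
      have h3 : n.choose (n - 1) ≤ (n + d).choose (n - 1) :=
        Nat.choose_le_choose _ (Nat.le_add_right n d)
      have h4 : n.choose (n - 1) = n := by
        have h5 := Nat.choose_symm (n := n) (k := 1) hn
        rw [h5, Nat.choose_one_right]
      rwa [h4] at h3
    have h3 : (n : ℝ) ≤ (((n + d).choose (n - 1) : ℕ) : ℝ) := by exact_mod_cast h2
    linarith
  exact Run7.h334.CovHyp.main_reduction3 ha hm hsum' one_ne_zero
    (MvPolynomial.isHomogeneous_one _ _) hB hy hgen htr hc0 hc hpow

end Pool.Agent.Results.MP_5b1cbc_ag.RamifiedHyperplanes
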